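import Pool.Agent.K1H32.FE.Stm

/-!
# Random walks on Fuchsian groups: positive words
-/

set_option autoImplicit false

open Filter Topology

namespace Pool.Agent.K1H39.FE

open Pool.Agent.K1H32.FE

/-! ### Freeness of positive words -/

/-- The matrix of a positive word. -/
def MW (l : List Bool) : SL := (l.map uni).prod

theorem wd_eq (l : List Bool) : wd l = (MW l : PSL) := by
  unfold wd MW
  have h := map_list_prod (QuotientGroup.mk' (Subgroup.center SL)) (l.map uni)
  rw [List.map_map] at h
  exact h.symm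

theorem MW_nil : MW [] = 1 := rfl

theorem MW_cons (b : Bool) (l : List Bool) : MW (b :: l) = uni b * MW l := by
  simp [MW]

theorem uniT (M : SL) : (uni true * M) 0 0 = M 0 0 + M 1 0 ∧ (uni true * M) 0 1 = M 0 1 + M 1 1 ∧
    (uni true * M) 1 0 = M 1 0 ∧ (uni true * M) 1 1 = M 1 1 := by
  refine ⟨?_, ?_, ?_, ?_⟩ <;>
  · rw [Matrix.SpecialLinearGroup.coe_mul, Matrix.mul_apply, Fin.sum_univ_two]; simp [uni]

theorem uniF (M : SL) : (uni false * M) 0 0 = M 0 0 ∧ (uni false * M) 0 1 = M 0 1 ∧
    (uni false * M) 1 0 = M 0 0 + M 1 0 ∧ (uni false * M) 1 1 = M 0 1 + M 1 1 := by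
  refine ⟨?_, ?_, ?_, ?_⟩ <;>
  · rw [Matrix.SpecialLinearGroup.coe_mul, Matrix.mul_apply, Fin.sum_univ_two]; simp [uni]

theorem MW_nonneg (l : List Bool) : 0 ≤ MW l 0 0 ∧ 0 ≤ MW l 0 1 ∧ 0 ≤ MW l 1 0 ∧ 0 ≤ MW l 1 1 := by
  induction l with
  | nil => rw [MW_nil]; simp
  | cons b l ih =>
    obtain ⟨h1, h2, h3, h4⟩ := ih
    rw [MW_cons]
    cases b
    · obtain ⟨e1, e2, e3, e4⟩ := uniF (MW l)
      rw [e1, e2, e3, e4]
      exact ⟨h1, h2, by linarith, by linarith⟩
    · obtain ⟨e1, e2, e3, e4⟩ := uniT (MW l)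
      rw [e1, e2, e3, e4]
      exact ⟨by linarith, by linarith, h3, h4⟩

theorem MW_T_ne_F (l l' : List Bool) : uni true * MW l ≠ uni false * MW l' := by
  intro h
  obtain ⟨h1, h2, h3, h4⟩ := MW_nonneg l
  obtain ⟨h1', h2', h3', h4'⟩ := MW_nonneg l'
  obtain ⟨e1, e2, e3, e4⟩ := uniT (MW l)
  obtain ⟨f1, f2, f3, f4⟩ := uniF (MW l')
  have hd := det2 (MW l)
  rw [h] at e1 e2 e3 e4
  have a1 : MW l 0 0 = 0 := by linarith
  have a2 : MW l 0 1 = 0 := by linarith
  rw [a1, a2] at hd
  norm_num at hd

theorem MW_T_ne_1 (l : List Bool) : uni true * MW l ≠ 1 := by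
  intro h
  obtain ⟨h1, h2, h3, h4⟩ := MW_nonneg l
  obtain ⟨e1, e2, e3, e4⟩ := uniT (MW l)
  rw [h] at e1 e2 e3 e4
  simp at e1 e2 e3 e4
  linarith

theorem MW_F_ne_1 (l : List Bool) : uni false * MW l ≠ 1 := by
  intro h
  obtain ⟨h1, h2, h3, h4⟩ := MW_nonneg l
  obtain ⟨e1, e2, e3, e4⟩ := uniF (MW l)
  rw [h] at e1 e2 e3 e4
  simp at e1 e2 e3 e4
  linarith

theorem MW_inj : ∀ l l' : List Bool, MW l = MW l' → l = l' := by
  intro l
  induction l with
  | nil =>
    intro l' h
    cases l' with
    | nil => rfl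
    | cons b l' =>
      exfalso
      rw [MW_nil, MW_cons] at h
      cases b
      · exact MW_F_ne_1 l' h.symm
      · exact MW_T_ne_1 l' h.symm
  | cons b l ih =>
    intro l' h
    cases l' with
    | nil =>
      exfalso
      rw [MW_nil, MW_cons] at h
      cases b
      · exact MW_F_ne_1 l h
      · exact MW_T_ne_1 l h
    | cons b' l' =>
      rw [MW_cons, MW_cons] at h
      cases b <;> cases b'
      · rw [ih l' (mul_left_cancel h)]
      · exact absurd h.symm (MW_T_ne_F l' l)
      · exact absurd h (MW_T_ne_F l l')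
      · rw [ih l' (mul_left_cancel h)]

theorem sq_eq_one_iff_of_side_conditions {r : ℝ} (h : r ^ 2 = 1) : r = 1 ∨ r = -1 := by
  have : (r - 1) * (r + 1) = 0 := by linear_combination h
  rcases mul_eq_zero.1 this with h | h
  · left; linarith
  · right; linarith

theorem t_FREE : S_FREE := by
  intro l l' h
  rw [wd_eq, wd_eq] at h
  have h1 := QuotientGroup.eq.1 h
  rw [Matrix.SpecialLinearGroup.mem_center_iff] at h1
  obtain ⟨r, hr, hc⟩ := h1
  have hmul : ((MW l' : SL) : Matrix (Fin 2) (Fin 2) ℝ) = r • ((MW l : SL) : Matrix (Fin 2) (Fin 2) ℝ) := by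
    have : MW l' = MW l * ((MW l)⁻¹ * MW l') := by group
    rw [this, Matrix.SpecialLinearGroup.coe_mul, ← hc]
    simp [Matrix.scalar_apply, Matrix.smul_eq_mul_diagonal]
  have hr2 : r ^ 2 = 1 := by simpa using hr
  obtain ⟨h1, h2, h3, h4⟩ := MW_nonneg l
  obtain ⟨h1', h2', h3', h4'⟩ := MW_nonneg l'
  have e1 : MW l' 0 0 = r * MW l 0 0 := by rw [hmul]; simp
  have e2 : MW l' 0 1 = r * MW l 0 1 := by rw [hmul]; simp
  have e3 : MW l' 1 0 = r * MW l 1 0 := by rw [hmul]; simp
  have e4 : MW l' 1 1 = r * MW l 1 1 := by rw [hmul]; simp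
  have hd := det2 (MW l)
  have hr1 : r = 1 := by
    rcases sq_eq_one_iff_of_side_conditions hr2 with h | h
    · exact h
    · exfalso
      rw [h] at e1 e2 e3 e4
      have a1 : MW l 0 0 = 0 := by linarith
      have a2 : MW l 0 1 = 0 := by linarith
      rw [a1, a2] at hd
      norm_num at hd
  rw [hr1, one_smul] at hmul
  exact MW_inj _ _ (Subtype.ext hmul.symm)

/-! ### Words with one more letter -/

section

variable {ι G : Type} [Fintype ι] [Group G]

theorem sum_cons (k : ℕ) (f : (Fin (k + 1) → ι) → ℝ) :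
    ∑ w, f w = ∑ i, ∑ w : Fin k → ι, f (Fin.cons i w) := by
  rw [← (Fin.consEquiv (fun _ => ι)).sum_comp f, Fintype.sum_prod_type]
  rfl

theorem wp_cons (m : ι → ℝ) (k : ℕ) (i : ι) (w : Fin k → ι) :
    wp m (k + 1) (Fin.cons i w) = m i * wp m k w := by
  simp [wp, Fin.prod_univ_succ]

theorem wx_cons (σ : ι → G) (k : ℕ) (i : ι) (w : Fin k → ι) :
    wx σ (k + 1) (Fin.cons i w) = σ i * wx σ k w := by
  simp [wx, List.ofFn_succ]

theorem pr_succ (σ : ι → G) (m : ι → ℝ) (k : ℕ) (g : G) :
    pr (wp m (k + 1)) (wx σ (k + 1)) g = ∑ i, m i * pr (wp m k) (wx σ k) ((σ i)⁻¹ * g) := by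
  unfold pr
  rw [sum_cons]
  refine Finset.sum_congr rfl fun i _ => ?_
  rw [Finset.mul_sum]
  refine Finset.sum_congr rfl fun w _ => ?_
  rw [wp_cons, wx_cons, mul_ite, mul_zero]
  by_cases h : σ i * wx σ k w = g
  · rw [if_pos h, if_pos (eq_inv_mul_iff_mul_eq.2 h)]
  · rw [if_neg h, if_neg (fun h' => h (eq_inv_mul_iff_mul_eq.1 h'))]

theorem wp_nonneg {m : ι → ℝ} (hm : IsPr m) (k : ℕ) (w : Fin k → ι) : 0 ≤ wp m k w :=
  Finset.prod_nonneg fun _ _ => hm.nonneg _

theorem pr_nonneg {m : ι → ℝ} (hm : IsPr m) (σ : ι → G) (k : ℕ) (g : G) :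
    0 ≤ pr (wp m k) (wx σ k) g := by
  unfold pr
  refine Finset.sum_nonneg fun w _ => ?_
  split_ifs
  · exact wp_nonneg hm k w
  · exact le_rfl

theorem sum_wp {m : ι → ℝ} (hm : IsPr m) (k : ℕ) : ∑ w, wp m k w = 1 := by
  induction k with
  | zero => simp [wp]
  | succ k ih =>
    rw [sum_cons]
    simp only [wp_cons]
    simp only [← Finset.mul_sum, ih, mul_one]
    exact hm.sum

theorem sum_len {m : ι → ℝ} (hm : IsPr m) (f : ι → ℝ) (k : ℕ) :
    ∑ w, wp m k w * ∑ i, f (w i) = k * ∑ j, m j * f j := by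
  induction k with
  | zero => simp
  | succ k ih =>
    rw [sum_cons]
    have : ∀ j : ι, ∑ w : Fin k → ι, wp m (k + 1) (Fin.cons j w) *
        ∑ i, f ((Fin.cons j w : Fin (k + 1) → ι) i) =
        m j * f j + m j * ∑ w, wp m k w * ∑ i, f (w i) := by
      intro j
      have h1 : ∀ w : Fin k → ι, wp m (k + 1) (Fin.cons j w) *
        ∑ i, f ((Fin.cons j w : Fin (k + 1) → ι) i) =
        m j * f j * wp m k w + m j * (wp m k w * ∑ i, f (w i)) := by
        intro w
        rw [wp_cons, Fin.sum_univ_succ]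
        simp only [Fin.cons_zero, Fin.cons_succ]
        ring
      simp only [h1]
      rw [Finset.sum_add_distrib, ← Finset.mul_sum, ← Finset.mul_sum, sum_wp hm, mul_one]
    simp only [this]
    rw [Finset.sum_add_distrib, ← Finset.sum_mul, hm.sum, ih]
    push_cast
    ring

open Classical in
/-- Entropy bounded below by a pointwise bound of the law. -/
theorem Hw_ge {m : ι → ℝ} (hm : IsPr m) (σ : ι → G) (k : ℕ) (c : (Fin k → ι) → ℝ)
    (h : ∀ w, pr (wp m k) (wx σ k) (wx σ k w) ≤ Real.exp (-(c w))) :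
    ∑ w, wp m k w * c w ≤ Hw σ m k := by
  unfold Hw Hp
  have h1 : ∀ a ∈ Finset.univ.image (wx σ k), Real.negMulLog (pr (wp m k) (wx σ k) a) =
      ∑ w, if wx σ k w = a then wp m k w * (-Real.log (pr (wp m k) (wx σ k) (wx σ k w))) else 0 := by
    intro a _
    have : ∀ w, (if wx σ k w = a then
        wp m k w * (-Real.log (pr (wp m k) (wx σ k) (wx σ k w))) else 0) =
        (if wx σ k w = a then wp m k w else 0) * (-Real.log (pr (wp m k) (wx σ k) a)) := by
      intro w
      split_ifs with hw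
      · rw [hw]
      · rw [zero_mul]
    simp only [this]
    rw [← Finset.sum_mul, Real.negMulLog]
    unfold pr
    ring
  rw [Finset.sum_congr rfl h1, Finset.sum_comm]
  refine Finset.sum_le_sum fun w _ => ?_
  rw [Finset.sum_ite_eq (Finset.univ.image (wx σ k)) (wx σ k w)
    (fun _ => wp m k w * (-Real.log (pr (wp m k) (wx σ k) (wx σ k w)))),
    if_pos (Finset.mem_image_of_mem _ (Finset.mem_univ _))]
  rcases (wp_nonneg hm k w).eq_or_lt with h0 | h0
  · rw [← h0]; simp
  · have hpos : 0 < pr (wp m k) (wx σ k) (wx σ k w) := by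
      refine lt_of_lt_of_le h0 ?_
      unfold pr
      calc wp m k w = if wx σ k w = wx σ k w then wp m k w else 0 := by simp
        _ ≤ _ := Finset.single_le_sum (f := fun w' => if wx σ k w' = wx σ k w then wp m k w' else 0)
          (fun w' _ => by split_ifs; exacts [wp_nonneg hm k w', le_rfl]) (Finset.mem_univ w)
    have h2 := Real.log_le_log hpos (h w)
    rw [Real.log_exp] at h2
    exact mul_le_mul_of_nonneg_left (by linarith) h0.le

end

/-! ### Long jumps -/

section

variable {G : Type} [Group G] {ev : List Bool → G}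

theorem sum_single_letter {J : Type} [Fintype J] (n : ℕ) (v : J → List Bool)
    (hv : ∀ j, (v j).length = n) (hvi : Function.Injective v)
    (hmul : ∀ l l', ev (l ++ l') = ev l * ev l') (hinj : Function.Injective ev)
    (P : G → ℝ) (hP0 : ∀ g, g ∉ Set.range ev → P g = 0)
    (hP1 : ∀ u, P (ev u) ≤ (1 / 2) ^ u.length) (hP : ∀ g, 0 ≤ P g) (u : List Bool) :
    ∑ j, P ((ev (v j))⁻¹ * ev u) ≤ 2 ^ n * (1 / 2) ^ u.length := by
  classical
  by_cases h : ∃ j, P ((ev (v j))⁻¹ * ev u) ≠ 0
  · obtain ⟨j, hj⟩ := h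
    have key : ∀ j', P ((ev (v j'))⁻¹ * ev u) ≠ 0 → ∃ u', u = v j' ++ u' := by
      intro j' hj'
      by_contra hcon
      apply hj'
      apply hP0
      rintro ⟨u', hu'⟩
      apply hcon
      refine ⟨u', hinj ?_⟩
      rw [hmul, hu']
      group
    obtain ⟨u', hu'⟩ := key j hj
    rw [Finset.sum_eq_single j]
    · rw [hu', hmul, inv_mul_cancel_left]
      refine (hP1 u').trans (le_of_eq ?_)
      rw [List.length_append, hv, pow_add, ← mul_assoc, ← mul_pow]
      norm_num
    · intro j' _ hne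
      by_contra hj'
      obtain ⟨u'', hu''⟩ := key j' hj'
      apply hne
      apply hvi
      have h1 : v j' ++ u'' = v j ++ u' := by rw [← hu'', ← hu']
      exact (List.append_inj h1 (by rw [hv, hv])).1
    · intro hj'
      exact absurd (Finset.mem_univ _) hj'
  · push Not at h
    rw [Finset.sum_eq_zero fun j _ => h j]
    positivity

/-- Lengths of the letters. -/
def ll (N : ℕ) : Bool ⊕ (Fin N → Bool) → List Bool :=
  Sum.elim (fun b => [b]) (fun w => List.ofFn w)

theorem wx_ev (hmul : ∀ l l', ev (l ++ l') = ev l * ev l') {ι : Type} (v : ι → List Bool) (k : ℕ)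
    (w : Fin k → ι) : wx (fun i => ev (v i)) k w = ev ((List.ofFn fun i => v (w i)).flatten) := by
  have h1 : ev [] = 1 := by
    have := hmul [] []
    simp only [List.append_nil] at this
    exact (left_eq_mul.1 this)
  have key : ∀ L : List (List Bool), (L.map ev).prod = ev L.flatten := by
    intro L
    induction L with
    | nil => simp [h1]
    | cons a L ih => rw [List.map_cons, List.prod_cons, ih, List.flatten_cons, hmul]
  rw [← key, List.map_ofFn]
  rfl

theorem t_EXH : S_EXH := by
  intro G _ ev N ε hmul hinj hε0 hε1 hN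
  have h1 : ev [] = 1 := by
    have := hmul [] []
    simp only [List.append_nil] at this
    exact (left_eq_mul.1 this)
  set m : Bool ⊕ (Fin N → Bool) → ℝ :=
    fun i => Sum.elim (fun _ => (1 - ε) / 2) (fun _ => ε / 2 ^ N) i with hm
  set σ : Bool ⊕ (Fin N → Bool) → G :=
    fun i => Sum.elim (fun b => ev [b]) (fun w => ev (List.ofFn w)) i with hσ
  have hσv : σ = fun i => ev (ll N i) := by
    funext i
    cases i <;> rfl
  have hpm : IsPr m := by
    constructor
    · intro i
      cases i with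
      | inl b => simp only [hm, Sum.elim_inl]; linarith
      | inr w => simp only [hm, Sum.elim_inr]; positivity
    · rw [Fintype.sum_sum_type]
      simp [hm]
      field_simp
      ring
  -- the law is supported on the semigroup
  have hsupp : ∀ k g, g ∉ Set.range ev → pr (wp m k) (wx σ k) g = 0 := by
    intro k g hg
    unfold pr
    refine Finset.sum_eq_zero fun w _ => ?_
    rw [if_neg]
    intro hw
    apply hg
    rw [hσv, wx_ev hmul] at hw
    exact ⟨_, hw⟩
  -- the law decays
  have hdec : ∀ k u, pr (wp m k) (wx σ k) (ev u) ≤ (1 / 2) ^ u.length := by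
    intro k
    induction k with
    | zero =>
      intro u
      unfold pr
      by_cases hu : u = []
      · rw [hu, h1]
        simp [wp, wx]
      · rw [Finset.sum_eq_zero]
        · positivity
        · intro w _
          rw [if_neg]
          intro hw
          apply hu
          apply hinj
          rw [h1, ← hw]
          simp [wx]
    | succ k ih =>
      intro u
      rw [pr_succ, Fintype.sum_sum_type]
      simp only [hm, hσ, Sum.elim_inl, Sum.elim_inr]
      rw [← Finset.mul_sum, ← Finset.mul_sum]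
      have e1 := sum_single_letter (ev := ev) 1 (fun b : Bool => [b]) (fun _ => rfl)
        (fun a b h => by simpa using h) hmul hinj (pr (wp m k) (wx σ k)) (hsupp k) ih
        (pr_nonneg hpm σ k) u
      have e2 := sum_single_letter (ev := ev) N (fun w : Fin N → Bool => List.ofFn w)
        (fun w => List.length_ofFn) (fun a b h => List.ofFn_injective h) hmul hinj
        (pr (wp m k) (wx σ k)) (hsupp k) ih (pr_nonneg hpm σ k) u
      calc _ ≤ (1 - ε) / 2 * (2 ^ 1 * (1 / 2) ^ u.length) +
            ε / 2 ^ N * (2 ^ N * (1 / 2) ^ u.length) := by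
            apply add_le_add
            · exact mul_le_mul_of_nonneg_left e1 (by linarith)
            · exact mul_le_mul_of_nonneg_left e2 (by positivity)
        _ = (1 / 2) ^ u.length := by
            field_simp
            ring
  -- entropy
  have hH : ∀ k : ℕ, (k : ℝ) * (ε * N * Real.log 2) ≤ Hw σ m k := by
    intro k
    have h2 := Hw_ge hpm σ k (fun w => (∑ i, ((ll N (w i)).length : ℝ)) * Real.log 2) (by
      intro w
      rw [hσv, wx_ev hmul]
      have := hdec k ((List.ofFn fun i => ll N (w i)).flatten)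
      rw [hσv] at this
      refine this.trans (le_of_eq ?_)
      rw [List.length_flatten, List.map_ofFn, List.sum_ofFn]
      rw [← neg_mul, mul_comm, Real.exp_mul, Real.exp_log (by norm_num : (0 : ℝ) < 2), Real.rpow_neg (by norm_num)]
      rw [one_div, inv_pow]
      congr 1
      rw [← Nat.cast_sum, Real.rpow_natCast]
      rfl)
    refine le_trans ?_ h2
    have h3 := sum_len hpm (fun i => ((ll N i).length : ℝ)) k
    have h4 : ∑ w, wp m k w * ((∑ i, ((ll N (w i)).length : ℝ)) * Real.log 2) =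
        (∑ w, wp m k w * (∑ i, ((ll N (w i)).length : ℝ))) * Real.log 2 := by
      rw [Finset.sum_mul]
      exact Finset.sum_congr rfl fun w _ => by ring
    rw [h4, h3, Fintype.sum_sum_type]
    simp only [hm, ll, Sum.elim_inl, Sum.elim_inr, List.length_ofFn, List.length_singleton]
    rw [Finset.sum_const, Finset.sum_const, Finset.card_univ, Finset.card_univ, Fintype.card_bool,
      Fintype.card_fun, Fintype.card_bool, Fintype.card_fin]
    simp only [nsmul_eq_mul]
    have h5 : ((2 ^ N : ℕ) : ℝ) * (ε / 2 ^ N * N) = ε * N := by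
      push_cast
      field_simp
    rw [h5]
    have hl : 0 < Real.log 2 := Real.log_pos (by norm_num)
    have : (k : ℝ) * (ε * N * Real.log 2) ≤ k * ((1 - ε) + ε * N) * Real.log 2 := by
      have : 0 ≤ (k : ℝ) * (1 - ε) * Real.log 2 := by
        have : 0 ≤ 1 - ε := by linarith
        positivity
      nlinarith
    refine this.trans (le_of_eq ?_)
    push_cast
    ring
  unfold hav
  apply le_ciInf
  intro k
  rw [le_div_iff₀ (by positivity)]
  have := hH (k + 1)
  push_cast at this
  linarith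

end

end Pool.Agent.K1H39.FE
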