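import Pool.Agent.K1H32.FE.Stm

/-!
# Random walks on Fuchsian groups: geometry of the action on the circle
-/

set_option autoImplicit false

open Filter Topology

namespace Pool.Agent.K1H39.FE

open Pool.Agent.K1H32.FE

theorem dist_K (x y : K) :
    dist x y = max |(x : ℝ × ℝ).1 - (y : ℝ × ℝ).1| |(x : ℝ × ℝ).2 - (y : ℝ × ℝ).2| := by
  rw [Subtype.dist_eq, Prod.dist_eq, Real.dist_eq, Real.dist_eq]

/-- Key computation. -/
theorem geom_key {R s a b c d u1 u2 v1 v2 t w1 w2 : ℝ} (hR : 1 ≤ R) (hs : 1 ≤ s)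
    (hdet : a * d - b * c = 1) (hu : u1 ^ 2 + u2 ^ 2 = 1) (hv : v1 ^ 2 + v2 ^ 2 = 1)
    (h1 : s ^ 2 ≤ a ^ 2 + b ^ 2 + c ^ 2 + d ^ 2) (h2 : a ^ 2 + b ^ 2 + c ^ 2 + d ^ 2 ≤ 4 * s ^ 2)
    (ht : 0 < t) (ht2 : t ^ 2 = (a * v1 + b * v2) ^ 2 + (c * v1 + d * v2) ^ 2)
    (h3 : a ^ 2 + b ^ 2 + c ^ 2 + d ^ 2 ≤ R ^ 2 * t ^ 2)
    (hw1 : a * v1 + b * v2 = t * w1) (hw2 : c * v1 + d * v2 = t * w2)
    (h4 : |w1 - u1| ≤ (s ^ 2)⁻¹) (h5 : |w2 - u2| ≤ (s ^ 2)⁻¹) :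
    ((u1 * a + u2 * c) / s) ^ 2 + ((u1 * b + u2 * d) / s) ^ 2 +
      (s * (-u2 * a + u1 * c)) ^ 2 + (s * (-u2 * b + u1 * d)) ^ 2 ≤ 20 + (4 + R) ^ 2 := by
  have hs0 : 0 < s := by linarith
  have hR0 : 0 < R := by linarith
  -- first part
  have hsum : (u1 * a + u2 * c) ^ 2 + (u1 * b + u2 * d) ^ 2 + (-u2 * a + u1 * c) ^ 2 +
      (-u2 * b + u1 * d) ^ 2 = a ^ 2 + b ^ 2 + c ^ 2 + d ^ 2 := by
    linear_combination (a ^ 2 + b ^ 2 + c ^ 2 + d ^ 2) * hu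
  have hA : ((u1 * a + u2 * c) / s) ^ 2 + ((u1 * b + u2 * d) / s) ^ 2 ≤ 4 := by
    rw [div_pow, div_pow, ← add_div, div_le_iff₀ (by positivity)]
    nlinarith [sq_nonneg (-u2 * a + u1 * c), sq_nonneg (-u2 * b + u1 * d)]
  -- bounds
  have hu1 : |u1| ≤ 1 := abs_le_of_sq_le_sq (by nlinarith [sq_nonneg u2]) (by norm_num)
  have hu2 : |u2| ≤ 1 := abs_le_of_sq_le_sq (by nlinarith [sq_nonneg u1]) (by norm_num)
  have hsi : s * (s ^ 2)⁻¹ = s⁻¹ := by field_simp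
  -- Cauchy: t <= 2 s
  have hts : t ≤ 2 * s := by
    apply le_of_sq_le_sq _ (by positivity)
    have e : a ^ 2 + b ^ 2 + c ^ 2 + d ^ 2 =
        t ^ 2 + ((-a * v2 + b * v1) ^ 2 + (-c * v2 + d * v1) ^ 2) := by
      rw [ht2]; linear_combination (-(a ^ 2 + b ^ 2 + c ^ 2 + d ^ 2)) * hv
    nlinarith [sq_nonneg (-a * v2 + b * v1), sq_nonneg (-c * v2 + d * v1)]
  have hp1 : |-a * v2 + b * v1| ≤ 2 * s := by
    apply abs_le_of_sq_le_sq _ (by positivity)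
    have e : a ^ 2 + b ^ 2 + c ^ 2 + d ^ 2 =
        t ^ 2 + ((-a * v2 + b * v1) ^ 2 + (-c * v2 + d * v1) ^ 2) := by
      rw [ht2]; linear_combination (-(a ^ 2 + b ^ 2 + c ^ 2 + d ^ 2)) * hv
    nlinarith [sq_nonneg t, sq_nonneg (-c * v2 + d * v1)]
  have hp2 : |-c * v2 + d * v1| ≤ 2 * s := by
    apply abs_le_of_sq_le_sq _ (by positivity)
    have e : a ^ 2 + b ^ 2 + c ^ 2 + d ^ 2 =
        t ^ 2 + ((-a * v2 + b * v1) ^ 2 + (-c * v2 + d * v1) ^ 2) := by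
      rw [ht2]; linear_combination (-(a ^ 2 + b ^ 2 + c ^ 2 + d ^ 2)) * hv
    nlinarith [sq_nonneg t, sq_nonneg (-a * v2 + b * v1)]
  -- s <= R t
  have hRt : s ≤ R * t := by
    apply le_of_sq_le_sq _ (by positivity)
    rw [mul_pow]; linarith
  -- rho . v
  have hX : |s * ((-u2 * a + u1 * c) * v1 + (-u2 * b + u1 * d) * v2)| ≤ 4 := by
    have e : s * ((-u2 * a + u1 * c) * v1 + (-u2 * b + u1 * d) * v2) =
        s * t * (u1 * (w2 - u2) - u2 * (w1 - u1)) := by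
      linear_combination (-s * u2) * hw1 + s * u1 * hw2
    rw [e, abs_mul, abs_of_pos (by positivity : 0 < s * t)]
    have h6 : |u1 * (w2 - u2) - u2 * (w1 - u1)| ≤ (s ^ 2)⁻¹ + (s ^ 2)⁻¹ := by
      refine (abs_sub _ _).trans ?_
      rw [abs_mul, abs_mul]
      have i1 : |u1| * |w2 - u2| ≤ 1 * (s ^ 2)⁻¹ :=
        mul_le_mul hu1 h5 (abs_nonneg _) (by norm_num)
      have i2 : |u2| * |w1 - u1| ≤ 1 * (s ^ 2)⁻¹ :=
        mul_le_mul hu2 h4 (abs_nonneg _) (by norm_num)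
      linarith
    calc s * t * |u1 * (w2 - u2) - u2 * (w1 - u1)| ≤ s * (2 * s) * ((s ^ 2)⁻¹ + (s ^ 2)⁻¹) := by
          gcongr
      _ = 4 := by field_simp; norm_num
  -- rho . v perp
  have hY : |s * (-(-u2 * a + u1 * c) * v2 + (-u2 * b + u1 * d) * v1)| ≤ 4 + R := by
    have hdw : t * (w1 * (-c * v2 + d * v1) - w2 * (-a * v2 + b * v1)) = 1 := by
      have : t * (w1 * (-c * v2 + d * v1) - w2 * (-a * v2 + b * v1)) =
          (a * v1 + b * v2) * (-c * v2 + d * v1) - (c * v1 + d * v2) * (-a * v2 + b * v1) := by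
        rw [hw1, hw2]; ring
      rw [this]
      linear_combination hdet * (v1 ^ 2 + v2 ^ 2) + hv
    have e : s * (-(-u2 * a + u1 * c) * v2 + (-u2 * b + u1 * d) * v1) =
        s * ((u1 - w1) * (-c * v2 + d * v1)) - s * ((u2 - w2) * (-a * v2 + b * v1)) + s / t := by
      have : s / t = s * (w1 * (-c * v2 + d * v1) - w2 * (-a * v2 + b * v1)) := by
        rw [div_eq_iff ht.ne']; linear_combination (-s) * hdw
      rw [this]; ring
    rw [e]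
    have j1 : |s * ((u1 - w1) * (-c * v2 + d * v1))| ≤ 2 := by
      rw [abs_mul, abs_mul, abs_of_pos hs0, abs_sub_comm]
      calc s * (|w1 - u1| * |-c * v2 + d * v1|) ≤ s * ((s ^ 2)⁻¹ * (2 * s)) := by gcongr
        _ = 2 := by field_simp
    have j2 : |s * ((u2 - w2) * (-a * v2 + b * v1))| ≤ 2 := by
      rw [abs_mul, abs_mul, abs_of_pos hs0, abs_sub_comm]
      calc s * (|w2 - u2| * |-a * v2 + b * v1|) ≤ s * ((s ^ 2)⁻¹ * (2 * s)) := by gcongr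
        _ = 2 := by field_simp
    have j3 : |s / t| ≤ R := by
      rw [abs_of_pos (by positivity), div_le_iff₀ ht]; exact hRt
    calc _ ≤ |s * ((u1 - w1) * (-c * v2 + d * v1)) - s * ((u2 - w2) * (-a * v2 + b * v1))| + |s / t| :=
          abs_add_le _ _
      _ ≤ |s * ((u1 - w1) * (-c * v2 + d * v1))| + |s * ((u2 - w2) * (-a * v2 + b * v1))| + |s / t| := by
          gcongr; exact abs_sub _ _
      _ ≤ 4 + R := by linarith
  have hZ : (s * (-u2 * a + u1 * c)) ^ 2 + (s * (-u2 * b + u1 * d)) ^ 2 =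
      (s * ((-u2 * a + u1 * c) * v1 + (-u2 * b + u1 * d) * v2)) ^ 2 +
      (s * (-(-u2 * a + u1 * c) * v2 + (-u2 * b + u1 * d) * v1)) ^ 2 := by
    linear_combination (-((s * (-u2 * a + u1 * c)) ^ 2 + (s * (-u2 * b + u1 * d)) ^ 2)) * hv
  have hX2 := sq_le_sq' (abs_le.1 hX).1 (abs_le.1 hX).2
  have hY2 := sq_le_sq' (abs_le.1 hY).1 (abs_le.1 hY).2
  linarith

theorem inv_entries (h : SL) : (h⁻¹) 0 0 = h 1 1 ∧ (h⁻¹) 0 1 = -h 0 1 ∧ (h⁻¹) 1 0 = -h 1 0 ∧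
    (h⁻¹) 1 1 = h 0 0 := by
  have : ((h⁻¹ : SL) : Matrix (Fin 2) (Fin 2) ℝ) = !![h 1 1, -h 0 1; -h 1 0, h 0 0] := by
    rw [Matrix.SpecialLinearGroup.coe_inv, Matrix.adjugate_fin_two]
  refine ⟨?_, ?_, ?_, ?_⟩ <;> · rw [this]; simp

theorem mul_entries (h g : SL) (i j : Fin 2) : (h * g) i j = h i 0 * g 0 j + h i 1 * g 1 j := by
  rw [Matrix.SpecialLinearGroup.coe_mul, Matrix.mul_apply, Fin.sum_univ_two]

theorem t_GEOM : S_GEOM := by
  intro R hR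
  refine ⟨20 + (4 + R) ^ 2, ?_⟩
  intro s u hs
  obtain ⟨⟨u1, u2⟩, hu⟩ := u
  have hs0 : 0 < s := by linarith
  simp only at hu
  refine ⟨⟨!![s * u1, -u2 / s; s * u2, u1 / s], by
    rw [Matrix.det_fin_two_of]; field_simp; linarith⟩, ?_⟩
  intro g v h1 h2 h3 h4
  obtain ⟨⟨v1, v2⟩, hv⟩ := v
  simp only at hv
  have ht := rr_pos g ⟨(v1, v2), hv⟩
  have ht2 := rr_sq g (v1, v2)
  have hdet := det2 g
  simp only at ht ht2
  have h4' := h4
  rw [dist_K] at h4'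
  simp only [act, ContinuousMap.coe_mk] at h4'
  have h5 := (le_max_left _ _).trans h4'
  have h6 := (le_max_right _ _).trans h4'
  have key := geom_key (a := g 0 0) (b := g 0 1) (c := g 1 0) (d := g 1 1) (u1 := u1) (u2 := u2)
    (v1 := v1) (v2 := v2) (t := rr g (v1, v2)) (w1 := (mv g (v1, v2)).1 / rr g (v1, v2))
    (w2 := (mv g (v1, v2)).2 / rr g (v1, v2)) hR hs (by linarith) hu hv h1 h2 ht ht2 h3
    (by field_simp; rfl) (by field_simp; rfl) h5 h6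
  refine le_trans (le_of_eq ?_) key
  unfold nsq
  simp only [mul_entries]
  obtain ⟨i1, i2, i3, i4⟩ := inv_entries (⟨!![s * u1, -u2 / s; s * u2, u1 / s], by
    rw [Matrix.det_fin_two_of]; field_simp; linarith⟩ : SL)
  rw [i1, i2, i3, i4]
  simp
  field_simp

theorem t_ARC : S_ARC := by
  intro R hR g
  have hR0 : 0 < R := by linarith
  have hdet := det2 g
  -- choose the row
  obtain ⟨a, b, hn, hrow⟩ : ∃ a b : ℝ, nsq g ≤ 2 * (a ^ 2 + b ^ 2) ∧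
      ∀ v : K, (a * (v : ℝ × ℝ).1 + b * (v : ℝ × ℝ).2) ^ 2 ≤ rr g v ^ 2 := by
    rcases le_total (g 1 0 ^ 2 + g 1 1 ^ 2) (g 0 0 ^ 2 + g 0 1 ^ 2) with h | h
    · refine ⟨g 0 0, g 0 1, by unfold nsq; linarith, fun v => ?_⟩
      rw [rr_sq]; simp only [mv]; nlinarith [sq_nonneg (g 1 0 * (v : ℝ × ℝ).1 + g 1 1 * (v : ℝ × ℝ).2)]
    · refine ⟨g 1 0, g 1 1, by unfold nsq; linarith, fun v => ?_⟩
      rw [rr_sq]; simp only [mv]; nlinarith [sq_nonneg (g 0 0 * (v : ℝ × ℝ).1 + g 0 1 * (v : ℝ × ℝ).2)]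
  have hnpos : 0 < a ^ 2 + b ^ 2 := by
    have : 0 < nsq g := by
      unfold nsq
      by_contra hcon
      push Not at hcon
      have e1 : g 0 0 = 0 := by nlinarith [sq_nonneg (g 0 0), sq_nonneg (g 0 1), sq_nonneg (g 1 0), sq_nonneg (g 1 1)]
      have e2 : g 0 1 = 0 := by nlinarith [sq_nonneg (g 0 0), sq_nonneg (g 0 1), sq_nonneg (g 1 0), sq_nonneg (g 1 1)]
      rw [e1, e2] at hdet
      norm_num at hdet
    linarith
  set n := a ^ 2 + b ^ 2 with hndef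
  set r := √n with hr
  have hrpos : 0 < r := Real.sqrt_pos.2 hnpos
  have hr2 : r ^ 2 = n := Real.sq_sqrt hnpos.le
  refine ⟨⟨(-b / r, a / r), ?_⟩, ⟨(b / r, -a / r), ?_⟩, ?_⟩
  · simp only [div_pow]; rw [← add_div, div_eq_one_iff_eq (by positivity), hr2]; ring
  · simp only [div_pow]; rw [← add_div, div_eq_one_iff_eq (by positivity), hr2]; ring
  · intro v hv
    obtain ⟨⟨v1, v2⟩, hv1⟩ := v
    have h1 := hrow ⟨(v1, v2), hv1⟩
    simp only at hv1 h1 hv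
    -- c^2 < 2 / R^2
    set c := (a * v1 + b * v2) / r with hc
    set d := (-b * v1 + a * v2) / r with hd
    have hcd : c ^ 2 + d ^ 2 = 1 := by
      rw [hc, hd, div_pow, div_pow, ← add_div, div_eq_one_iff_eq (by positivity), hr2]
      linear_combination n * hv1
    have hc2 : c ^ 2 < 2 / R ^ 2 := by
      rw [hc, div_pow, hr2, div_lt_div_iff₀ hnpos (by positivity)]
      nlinarith
    have hE : ∀ x1 x2 : ℝ, (v1 - x1) ^ 2 + (v2 - x2) ^ 2 < 4 / R ^ 2 →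
        max |v1 - x1| |v2 - x2| < 4 / R := by
      intro x1 x2 hx
      have h4 : 4 / R ^ 2 ≤ (4 / R) ^ 2 := by
        rw [div_pow]; gcongr; norm_num
      refine max_lt ?_ ?_
      · exact abs_lt_of_sq_lt_sq (by nlinarith [sq_nonneg (v2 - x2)]) (by positivity)
      · exact abs_lt_of_sq_lt_sq (by nlinarith [sq_nonneg (v1 - x1)]) (by positivity)
    have h42 : 4 / R ^ 2 = 2 * (2 / R ^ 2) := by ring
    rcases le_total 0 d with hd0 | hd0
    · left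
      rw [dist_K]
      apply hE
      have e : (v1 - -b / r) ^ 2 + (v2 - a / r) ^ 2 = 2 - 2 * d := by
        have e1 : (v1 - -b / r) ^ 2 + (v2 - a / r) ^ 2 =
            (v1 ^ 2 + v2 ^ 2) + (a ^ 2 + b ^ 2) / r ^ 2 - 2 * d := by
          rw [hd]; field_simp; ring
        rw [e1, hv1, hr2, div_self hnpos.ne']; ring
      rw [e, h42]
      nlinarith
    · right
      rw [dist_K]
      apply hE
      have e : (v1 - b / r) ^ 2 + (v2 - -a / r) ^ 2 = 2 + 2 * d := by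
        have e1 : (v1 - b / r) ^ 2 + (v2 - -a / r) ^ 2 =
            (v1 ^ 2 + v2 ^ 2) + (a ^ 2 + b ^ 2) / r ^ 2 + 2 * d := by
          rw [hd]; field_simp; ring
        rw [e1, hv1, hr2, div_self hnpos.ne']; ring
      rw [e, h42]
      nlinarith

end Pool.Agent.K1H39.FE
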